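import Pool.Agent.H2.KM.Targets

/-!
# Row MNN of the board kim_modules: the main induction
-/

set_option autoImplicit false

open Matrix Pool.Agent.H2.NL Pool.Agent.H2.KM Pool.Agent.H64.CC

namespace Pool.Agent.H4.KM.MNN

section

variable {K : Type} [Field K] {I : Type} [Fintype I] [DecidableEq I]

lemma con_add (η : Matrix I I K) (f g : List I → K) :
    con η 0 (f + g) = con η 0 f + con η 0 g := by
  funext l
  simp only [con, Pi.add_apply, mul_add, Finset.sum_add_distrib]

lemma con_zr (η : Matrix I I K) : con η 0 (0 : List I → K) = 0 := by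
  funext l
  simp [con]

lemma itc_add (F : Form K I) : ∀ (n : ℕ) (f g : List I → K),
    itc F n (f + g) = itc F n f + itc F n g
  | 0, f, g => rfl
  | n + 1, f, g => by
    change itc F n (con F.η 0 (f + g)) = itc F n (con F.η 0 f) + itc F n (con F.η 0 g)
    rw [con_add, itc_add F n]

lemma itc_zr (F : Form K I) : ∀ n : ℕ, itc F n (0 : List I → K) = 0
  | 0 => rfl
  | n + 1 => by
    change itc F n (con F.η 0 (0 : List I → K)) = 0
    rw [con_zr, itc_zr F n]

lemma sum_cons_eq (L : List (List ℕ)) (js : List ℕ) (f : List ℕ → List I → K) :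
    (fun w => ((js :: L).map fun js => f js w).sum) = f js + fun w => (L.map fun js => f js w).sum := by
  funext w
  rw [List.map_cons, List.sum_cons]
  rfl

lemma itc_sum (F : Form K I) (n : ℕ) (f : List ℕ → List I → K) : ∀ L : List (List ℕ),
    itc F n (fun w => (L.map fun js => f js w).sum) = (L.map fun js => itc F n (f js)).sum
  | [] => itc_zr F n
  | js :: L => by
    rw [sum_cons_eq, itc_add, itc_sum F n f L, List.map_cons, List.sum_cons]

omit [Fintype I] [DecidableEq I] in
lemma sws_Gp (hGSW : T_GSW) (o : I → Bool) (x : List I → List I → K) (hx : GS o x)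
    (s : List Bool) : ∀ js : List ℕ, sws o js (Gp o s x) = Gp o (exs js s) x
  | [] => rfl
  | j :: js => by
    change sw o j (sws o js (Gp o s x)) = Gp o (ex j (exs js s)) x
    rw [sws_Gp hGSW o x hx s js]
    exact hGSW K I o x hx (exs js s) j

lemma exs_perm {α : Type} (s : List α) : ∀ js : List ℕ, (exs js s).Perm s
  | [] => List.Perm.refl _
  | j :: js => (ex_perm j (exs js s)).trans (exs_perm s js)

end

section

variable {K : Type} [Field K] [CharZero K] {I : Type} [Fintype I] [DecidableEq I]

lemma sws_mem (F : Form K I) (A : ℕ → Submodule ℚ (List I → K)) (hA : Calc F.o F.η F.ω A)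
    (l : ℕ) (t : List I → K) (ht : t ∈ A l) : ∀ js : List ℕ, (∀ j ∈ js, j + 2 ≤ 2 * l) →
    sws F.o js t ∈ A l
  | [], _ => ht
  | j :: js, h => hA.sw l j _ (sws_mem F A hA l t ht js fun i hi => h i (List.mem_cons_of_mem _ hi))
      (h j List.mem_cons_self)

lemma sum_mem' (F : Form K I) (A : ℕ → Submodule ℚ (List I → K)) (hA : Calc F.o F.η F.ω A)
    (l : ℕ) (t : List I → K) (ht : t ∈ A l) : ∀ L : List (List ℕ),
    (∀ js ∈ L, ∀ j ∈ js, j + 2 ≤ 2 * l) → (fun w => (L.map fun js => sws F.o js t w).sum) ∈ A l
  | [], _ => (A l).zero_mem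
  | js :: L, h => by
    rw [sum_cons_eq L js (fun js w => sws F.o js t w)]
    exact (A l).add_mem (sws_mem F A hA l t ht js (h js List.mem_cons_self))
      (sum_mem' F A hA l t ht L fun i hi => h i (List.mem_cons_of_mem _ hi))

lemma it_B (h3 : T_BSP) (h7 : T_MEM) (F : Form K I) (A : ℕ → Submodule ℚ (List I → K))
    (hA : Calc F.o F.η F.ω A) : ∀ (c k p q : ℕ) (y : List I → List I → K), GS F.o y →
    MA F.o (A (k + c)) p (q + 2 * c) y → MA F.o (A k) p q ((opB F)^[c] y)
  | 0, k, p, q, y, _, h => h
  | c + 1, k, p, q, y, hy, h => by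
    rw [Function.iterate_succ_apply]
    exact it_B h3 h7 F A hA c k p q _ (h3 K I F y hy).2.1
      ((h7 K I F A hA y hy).2.2.1 (k + c) p (q + 2 * c) h)

lemma it_C (h3 : T_BSP) (h7 : T_MEM) (F : Form K I) (A : ℕ → Submodule ℚ (List I → K))
    (hA : Calc F.o F.η F.ω A) : ∀ (c k p q : ℕ) (y : List I → List I → K), GS F.o y →
    MA F.o (A (k + c)) (p + c) (q + c) y → MA F.o (A k) p q ((opC F)^[c] y)
  | 0, k, p, q, y, _, h => h
  | c + 1, k, p, q, y, hy, h => by
    rw [Function.iterate_succ_apply]
    exact it_C h3 h7 F A hA c k p q _ (h3 K I F y hy).2.2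
      ((h7 K I F A hA y hy).2.2.2 (k + c) (p + c) (q + c) h)

omit [Fintype I] [DecidableEq I] [CharZero K] in
lemma sum_mult (v : K) (f : List ℕ → K) : ∀ L : List (List ℕ), (∀ js ∈ L, f js = 0 ∨ f js = v) →
    f [] = v → ∃ m : ℕ, (L.map f).sum = m * v ∧ ([] ∈ L → 1 ≤ m)
  | [], _, _ => ⟨0, by simp, by simp⟩
  | js :: L, h, h0 => by
    obtain ⟨m, hm, hm1⟩ := sum_mult v f L (fun i hi => h i (List.mem_cons_of_mem _ hi)) h0
    rw [List.map_cons, List.sum_cons, hm]
    rcases h js List.mem_cons_self with h1 | h1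
    · by_cases hv : f js = v
      · refine ⟨m + 1, ?_, fun _ => Nat.le_add_left 1 m⟩
        rw [hv]
        push_cast
        ring
      · refine ⟨m, by rw [h1, zero_add], fun hm0 => ?_⟩
        rcases List.mem_cons.1 hm0 with h2 | h2
        · exact absurd (h2 ▸ h0) hv
        · exact hm1 h2
    · refine ⟨m + 1, ?_, fun _ => Nat.le_add_left 1 m⟩
      rw [h1]
      push_cast
      ring

end

theorem pf_MNN (h1 : T_SYM) (h2 : T_GSW) (h3 : T_BSP) (h4 : T_TYP) (h5 : T_PAT) (h6 : T_VCB)
    (h7 : T_MEM) : T_MNN := by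
  intro K _ _ I _ _ F A hA l hl hrec y hy hMA
  have claim : ∀ r s : ℕ, s + r + 1 = l → val F s s (2 * l - 1 - 2 * s) y = 0 := by
    intro r
    induction r using Nat.strong_induction_on with
    | _ r ih =>
      intro s hs
      set x : List I → List I → K := (opC F)^[r] ((opB F)^[s] y) with hx
      have hGSx : GS F.o x := (h6 K I F y hy 0 0 0 r s).1
      have hGSb : GS F.o ((opB F)^[s] y) := by
        have := (h6 K I F y hy 0 0 0 0 s).1
        exact this
      have hval : ∀ j i k : ℕ, val F j i k x = val F j (i + s) (k + r) y := fun j i k =>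
        (h6 K I F y hy j i k r s).2
      have hMAb : MA F.o (A (l + r)) (2 * s + r + 1 + r) (r + 1 + r) ((opB F)^[s] y) := by
        refine it_B h3 h7 F A hA s (l + r) (2 * s + r + 1 + r) (r + 1 + r) y hy ?_
        have e1 : 2 * l - 1 = l + r + s := by omega
        have e2 : 2 * l - 1 = 2 * s + r + 1 + r := by omega
        have e3 : 2 * l - 1 = r + 1 + r + 2 * s := by omega
        intro w hw1 hw2
        have k1 := hMA w (hw1.trans e2.symm) (hw2.trans e3.symm)
        rw [e1] at k1
        exact k1
      have hMAx : MA F.o (A l) (2 * s + r + 1) (r + 1) x :=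
        it_C h3 h7 F A hA r l (2 * s + r + 1) (r + 1) _ hGSb hMAb
      obtain ⟨p1, p2, p3, p4⟩ := h5 K I F s (r + 1)
      set t : List I → K := Gp F.o (pat s (r + 1)) x with ht
      have htA : t ∈ A l := hMAx (pat s (r + 1)) (by rw [p1]; ring) p2
      obtain ⟨L, hL0, hLj, hLs⟩ := h1 K I F.o (2 * l)
      have hz : itc F l (fun w => (L.map fun js => sws F.o js t w).sum) = 0 :=
        hrec _ (sum_mem' F A hA l t htA L hLj) (hLs t)
      rw [itc_sum F l (fun js w => sws F.o js t w) L] at hz
      have hlen : (pat s (r + 1)).length = 2 * l := by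
        rw [p3]
        omega
      have hcase : ∀ js : List ℕ, itc F l (sws F.o js t) = 0 ∨
          itc F l (sws F.o js t) = val F s s (2 * l - 1 - 2 * s) y := by
        intro js
        have hp := exs_perm (pat s (r + 1)) js
        obtain ⟨j, i, k, q1, q2, q3⟩ := h4 K I F l x hGSx (exs js (pat s (r + 1)))
          (by rw [hp.length_eq, hlen])
        rw [hp.count_eq, p1] at q1
        rw [hp.count_eq, p2] at q2
        rw [ht, sws_Gp h2 F.o x hGSx, q3, hval]
        have e1 : i + s = j := by omega
        have e2 : k + r = 2 * l - 1 - 2 * j := by omega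
        rw [e1, e2]
        rcases Nat.lt_or_ge s j with hsj | hsj
        · left
          exact ih (l - 1 - j) (by omega) j (by omega)
        · right
          have : j = s := by omega
          rw [this]
      have hnil : itc F l (sws F.o [] t) = val F s s (2 * l - 1 - 2 * s) y := by
        have e0 : l = s + (r + 1) := by omega
        have k1 : itc F l t = val F s 0 (r + 1) x := by
          rw [e0]
          exact p4 x
        change itc F l t = _
        rw [k1, hval]
        have e1 : 0 + s = s := by omega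
        have e2 : r + 1 + r = 2 * l - 1 - 2 * s := by omega
        rw [e1, e2]
      obtain ⟨m, hm, hm1⟩ := sum_mult (val F s s (2 * l - 1 - 2 * s) y)
        (fun js => itc F l (sws F.o js t)) L (fun js _ => hcase js) hnil
      have hm' : (m : K) * val F s s (2 * l - 1 - 2 * s) y = 0 := by
        rw [← hm]
        exact hz
      rcases mul_eq_zero.1 hm' with h0 | h0
      · exfalso
        have := hm1 hL0
        have h00 : m = 0 := by exact_mod_cast h0
        omega
      · exact h0
  have hfin := claim (l - 1) 0 (by omega)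
  have e1 : 2 * l - 1 - 2 * 0 = 2 * l - 1 := by omega
  rw [e1] at hfin
  exact hfin

end Pool.Agent.H4.KM.MNN
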